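import Pool.Agent.Mg.F436a94p.Gb484ea

/-!
For all but a proportion `δ` of the integers `n`, the number of `k` with `1 ≤ k ≤ n / 2` and
`k (n - k) + 1` prime is at least `n / (log n) ^ C`.
-/

theorem Pool.Agent.Results.MP_9d0b4d_nt.AlmostAll.result :
    ∀ δ : ℝ, 0 < δ → ∃ C N₀ : ℕ, ∀ N : ℕ, N₀ ≤ N →
      (((Finset.Icc 1 N).filter fun n : ℕ =>
        ((((Finset.Icc 1 (n / 2)).filter fun k : ℕ => Nat.Prime (k * (n - k) + 1)).card : ℕ) : ℝ) <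
          (n : ℝ) / Real.log n ^ C).card : ℝ) ≤ δ * N := by
  intro δ hδ
  obtain ⟨C, hC⟩ := Pool.Agent.MP_9d0b4d_nt.goal δ hδ
  obtain ⟨N₀, h⟩ := Filter.eventually_atTop.1 hC
  exact ⟨C, N₀, h⟩
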